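import Pool.Agent.Y801.LG.Mot2

/-!
# From one Galois representation to an Artin motive

Let `Π` be an algebraic cuspidal automorphic representation of `GL_n` over a number field `F` (the problem
has `F = ℚ`), unramified at the finite places `v ∉ S`, and let `α v i`, `1 ≤ i ≤ n`, be the eigenvalues of
the geometric Frobenius element on the unramified representation `rec(Π_v ⊗ |·|^((n-1)/2))`. Suppose that
for a set of places `v` of positive upper density the `α v i` are roots of unity without nonempty subfamily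
of sum zero (or that for a set of places of upper density greater than `1 - 1 / n ^ 2` the sum of the
`α v i` lies in one finite set).

Suppose that `Π` has an `ℓ`-adic Galois representation for one prime `ℓ₁` and one isomorphism (respectively
two different primes). Then there are a number field `E ⊆ ℂ` and an absolutely irreducible Artin motive `M`
over `F` of rank `n` with coefficients in `E`, a direct factor of `h⁰(Spec L) ⊗ E` for a finite Galois
extension `L` of `F`, such that for all `ℓ` the `ℓ`-adic realizations of `M` have property (2) at all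
`v ∉ S` which do not lie above `ℓ₁` (respectively at all `v ∉ S`). Cuspidality enters only through the mean
square of the `|∑ i, α v i|`.
-/

set_option autoImplicit false

namespace Pool.Agent.Results.MP_7742d9_nt.ArtinMotive

open NumberField IsDedekindDomain Filter

section defs

variable {F : Type} [Field F] [NumberField F]

/-- `σ` is an arithmetic Frobenius element at the place `v` of `F`: there is a maximal ideal `Q` above `v`
of the ring of all algebraic integers with `σ x ≡ x ^ N(v)` modulo `Q` for all `x` -/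
def Frobenius (v : HeightOneSpectrum (𝓞 F)) (σ : Gal(AlgebraicClosure F/F)) : Prop :=
  ∃ Q : Ideal (𝓞 (AlgebraicClosure F)), Q.IsMaximal ∧
    Q.comap (algebraMap (𝓞 F) (𝓞 (AlgebraicClosure F))) = v.asIdeal ∧
    ∀ x : 𝓞 (AlgebraicClosure F), σ • x - x ^ Ideal.absNorm v.asIdeal ∈ Q

/-- `σ` is in an inertia group at the place `v` of `F` -/
def Inertia (v : HeightOneSpectrum (𝓞 F)) (σ : Gal(AlgebraicClosure F/F)) : Prop :=
  ∃ Q : Ideal (𝓞 (AlgebraicClosure F)), Q.IsMaximal ∧
    Q.comap (algebraMap (𝓞 F) (𝓞 (AlgebraicClosure F))) = v.asIdeal ∧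
    ∀ x : 𝓞 (AlgebraicClosure F), σ • x - x ∈ Q

/-- the set `P` of places has upper natural density greater than `c`: for some `d > c` there are
arbitrarily large `X` such that at least `d * #{v | N(v) ≤ X}` places of norm at most `X` lie in `P` -/
def UpperDensityGt (P : Set (HeightOneSpectrum (𝓞 F))) (c : ℝ) : Prop :=
  ∃ d : ℝ, c < d ∧ ∃ᶠ X : ℕ in atTop,
    d * ({v : HeightOneSpectrum (𝓞 F) | Ideal.absNorm v.asIdeal ≤ X}.ncard : ℝ) ≤
      ({v : HeightOneSpectrum (𝓞 F) | Ideal.absNorm v.asIdeal ≤ X ∧ v ∈ P}.ncard : ℝ)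

/-- the numbers `a i` are roots of unity, and no nonempty subfamily has sum zero -/
def RootsOfUnity {n : ℕ} (a : Fin n → ℂ) : Prop :=
  (∀ i, ∃ m : ℕ, 0 < m ∧ a i ^ m = 1) ∧ ∀ J : Finset (Fin n), J.Nonempty → ∑ i ∈ J, a i ≠ 0

/-- `ρ` is unramified at `v` and each geometric Frobenius element at `v` is mapped to the semisimple
conjugacy class with the eigenvalues `a i` -/
def Corresponds {n : ℕ} {k : Type} [Field k] (ρ : Gal(AlgebraicClosure F/F) →* GL (Fin n) k)
    (v : HeightOneSpectrum (𝓞 F)) (a : Fin n → k) : Prop :=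
  (∀ τ, Inertia v τ → ρ τ = 1) ∧
    ∀ σ, Frobenius v σ⁻¹ → ∃ h : GL (Fin n) k, (ρ σ : Matrix (Fin n) (Fin n) k) =
      (h : Matrix (Fin n) (Fin n) k) * Matrix.diagonal a * ((h⁻¹ : GL (Fin n) k) : Matrix (Fin n) (Fin n) k)

/-- for arbitrarily large `X`, the sum of the `|∑ i, α v i| ^ 2` over the places `v ∉ S` of norm at most
`X` is at most `c` times the number of places of norm at most `X` -/
def MeanSquareLe {n : ℕ} (S : Set (HeightOneSpectrum (𝓞 F))) (α : HeightOneSpectrum (𝓞 F) → Fin n → ℂ)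
    (c : ℝ) : Prop :=
  ∃ᶠ X : ℕ in atTop,
    ∑ᶠ v ∈ {v : HeightOneSpectrum (𝓞 F) | Ideal.absNorm v.asIdeal ≤ X ∧ v ∉ S}, ‖∑ i, α v i‖ ^ 2 ≤
      c * ({v : HeightOneSpectrum (𝓞 F) | Ideal.absNorm v.asIdeal ≤ X}.ncard : ℝ)

/-- for some isomorphism `ι`, some continuous `ℓ`-adic representation corresponds to the `ι⁻¹ (α v)` at
all `v ∉ S` which do not lie above `ℓ` -/
def HasGaloisRep {n : ℕ} (S : Set (HeightOneSpectrum (𝓞 F))) (α : HeightOneSpectrum (𝓞 F) → Fin n → ℂ)
    (ℓ : ℕ) [Fact ℓ.Prime] : Prop :=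
  ∃ (ι : PadicAlgCl ℓ ≃+* ℂ) (ρ : Gal(AlgebraicClosure F/F) →* GL (Fin n) (PadicAlgCl ℓ)),
    Continuous ρ ∧ ∀ v ∉ S, (ℓ : 𝓞 F) ∉ v.asIdeal → Corresponds ρ v fun i => ι.symm (α v i)

/-- `r` is (the Betti realization of) an Artin motive with coefficients in `E`: for a finite Galois
extension `L` of `F`, it is a subrepresentation (via `Φ`) of the space of the functions on
`Hom_F(L, Fbar)` with the action `(g f)(φ) = f(g⁻¹ φ)`, the realization of `h⁰(Spec L) ⊗ E` -/
def IsArtinMotive {n : ℕ} {E : Type} [Field E] (r : Gal(AlgebraicClosure F/F) →* GL (Fin n) E) : Prop :=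
  ∃ L : IntermediateField F (AlgebraicClosure F), FiniteDimensional F L ∧ IsGalois F L ∧
    ∃ Φ : (Fin n → E) →ₗ[E] ((L →ₐ[F] AlgebraicClosure F) → E), Function.Injective Φ ∧
      ∀ (g : Gal(AlgebraicClosure F/F)) (w : Fin n → E) (φ : L →ₐ[F] AlgebraicClosure F),
        Φ ((r g : Matrix (Fin n) (Fin n) E).mulVec w) φ =
          Φ w (((g⁻¹ : Gal(AlgebraicClosure F/F)) : AlgebraicClosure F →ₐ[F] AlgebraicClosure F).comp φ)

/-- the extension of scalars of the representation `r` along `j` -/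
noncomputable def baseChange {n : ℕ} {E k : Type} [Field E] [Field k] (j : E →+* k)
    (r : Gal(AlgebraicClosure F/F) →* GL (Fin n) E) : Gal(AlgebraicClosure F/F) →* GL (Fin n) k :=
  (Matrix.GeneralLinearGroup.map j).comp r

/-- `r` has no invariant subspace over any extension field of `E` -/
def AbsIrreducible {n : ℕ} {E : Type} [Field E] (r : Gal(AlgebraicClosure F/F) →* GL (Fin n) E) : Prop :=
  ∀ (k : Type) [Field k] (j : E →+* k) (W : Submodule k (Fin n → k)),
    (∀ g, ∀ w ∈ W, (baseChange j r g : Matrix (Fin n) (Fin n) k).mulVec w ∈ W) → W = ⊥ ∨ W = ⊤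

end defs

/-- **Main result.** The motive is given by its Betti realization `E ^ n` with the action `r` of the
Galois group. Its `𝔩`-adic realization, with scalars extended to `k = ℚbar_ℓ`, is `baseChange j r`, where
`j : E → k` is an embedding which is compatible with the given embedding `e` of `E` into `ℂ`. -/
theorem result (F : Type) [Field F] [NumberField F] (n : ℕ) (hn : 0 < n)
    (S : Set (HeightOneSpectrum (𝓞 F))) (hS : S.Finite) (α : HeightOneSpectrum (𝓞 F) → Fin n → ℂ)
    (hfin : UpperDensityGt {v | v ∉ S ∧ RootsOfUnity (α v)} 0 ∨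
      ∃ T : Finset ℂ, UpperDensityGt {v | v ∉ S ∧ ∑ i, α v i ∈ T} (1 - 1 / (n : ℝ) ^ 2))
    (c : ℝ) (hc : c < 2) (hRS : MeanSquareLe S α c)
    (Λ : Set ℕ) (hΛ : Λ.Nonempty) (hprime : ∀ ℓ ∈ Λ, ℓ.Prime)
    (h : ∀ (ℓ : ℕ) [Fact ℓ.Prime], ℓ ∈ Λ → HasGaloisRep S α ℓ) :
    ∃ (E : IntermediateField ℚ (AlgebraicClosure ℚ)) (e : E →+* ℂ)
      (r : Gal(AlgebraicClosure F/F) →* GL (Fin n) E),
      FiniteDimensional ℚ E ∧ IsArtinMotive r ∧ AbsIrreducible r ∧
      ∀ (k : Type) [Field k] (j : E →+* k) (ι : k ≃+* ℂ), (∀ x, ι (j x) = e x) →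
        ∀ v ∉ S, (∃ ℓ ∈ Λ, (ℓ : 𝓞 F) ∉ v.asIdeal) →
          Corresponds (baseChange j r) v fun i => ι.symm (α v i) := by
  classical
  have hA : Pool.Agent.Y801.LG.Hyp n (fun v => Matrix.diagonal (α v)) S := by
    rcases hfin with ⟨d, hd, hf⟩ | ⟨T, d, hd, hf⟩
    · obtain ⟨c', hc', hf'⟩ := Pool.Agent.Y802.rel_dens _ le_rfl hd hf
      refine Or.inl (Pool.Agent.Y802.notNull_mono ?_ ⟨c', hc', hf'⟩)
      rintro v ⟨hv, h1, h2⟩
      exact ⟨hv, Pool.Agent.Y801.LG.rootsNoSub_diag h1 h2⟩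
    · have h0 : (0 : ℝ) ≤ 1 - 1 / (n : ℝ) ^ 2 := by
        have h1 : (1 : ℝ) ≤ n := by exact_mod_cast hn
        have h2 : 1 / (n : ℝ) ^ 2 ≤ 1 := by
          rw [div_le_one (by positivity)]
          nlinarith
        linarith
      obtain ⟨c', hc', hf'⟩ := Pool.Agent.Y802.rel_dens _ h0 hd hf
      refine Or.inr ⟨T, c', hc', ?_⟩
      have e : (fun v : HeightOneSpectrum (𝓞 F) => v ∉ S ∧ (Matrix.diagonal (α v)).trace ∈ T) =
          fun v => v ∈ {v | v ∉ S ∧ ∑ i, α v i ∈ T} := by
        ext v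
        rw [Matrix.trace_diagonal]
        exact Iff.rfl
      rw [e]
      exact hf'
  obtain ⟨E, e, r, L, h1, h2, h3, h4, h5, h6⟩ := Pool.Agent.Y801.LG.mot hn S hS α hA c hc
    (hRS.mono fun X hX => by
      have e := Pool.Agent.Y801.LG.sum_eq S α X
      rw [e]
      exact hX) Λ hΛ hprime h
  exact ⟨E, e, r, h1, ⟨L, h2, h3, h4⟩, h5, h6⟩

end Pool.Agent.Results.MP_7742d9_nt.ArtinMotive
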