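import Pool.Agent.Y456.LG.Tower
import Pool.Agent.Y456.LG.Res

/-!
# The motives over `ℚ` and one tower of sparse linear sections of `GL_m`

A sparse pattern is a square matrix `M` each of whose entries is `0`, `1` or one of the variables
`x_1, …, x_d`, in which each variable occurs, with at most three nonzero entries in every row and in every
column and with nonzero determinant (`Good {0, 1} M`). The points `x` of the affine space over `ℚ` such that
the matrix `M(x)` is invertible form the scheme `U_M`, a linear section of `GL_m`. Its pure motive `h(U_M)`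
(`hSec D M`) is the direct sum of all weight graded pieces `gr^W_w H^j_c(U_M)`.

A tower (`IsTower`) is a sequence of sparse patterns `M_0, M_1, …` such that `M_(i+1)` is the block diagonal
matrix with the blocks `M_i` and `N_i`, where `N_i` is another sparse pattern (in separate variables). So
`U_(i+1) = U_i × V_i`, where `V_i` is the section given by `N_i`.

There is ONE tower of sparse patterns such that for the category of motives for absolute Hodge cycles over
`ℚ` (and for every category `C` of pure motives over `ℚ` with the known properties `IsGraded`, `IsTensor`):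

1. every motive over `ℚ` is, up to a Tate twist, a direct summand of `h(U_i)` for all large `i`;
2. for every property `P` of motives (for instance: to have coefficients in a number field `E` such that the
   motive is absolutely irreducible of rank `n` with the Hodge numbers and the local representations
   prescribed by an algebraic cuspidal automorphic representation `Π` of `GL_n`), a motive with the property
   `P` exists if and only if for all large `i` there is one such that a Tate twist of it is cut out by an
   idempotent endomorphism of `h(U_i)`.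
-/

set_option autoImplicit false

open CategoryTheory CategoryTheory.Limits MonoidalCategory AlgebraicGeometry MvPolynomial
  Pool.Agent.Y116.UV Pool.Agent.Y101.Th Pool.Agent.Y691.TU Pool.Agent.Z125.UN Pool.Agent.Y456.LG

namespace Pool.Agent.Results.MP_7742d9_nt.OneTower

universe v u

/-- There is one tower of sparse linear sections of `GL_m` over `ℚ`, given by patterns of zeros, ones and
variables, such that every motive over `ℚ` is, up to a Tate twist, a direct summand of the motives of all
of its members with a large index. -/
theorem result :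
    ∃ M : ℕ → Pool.Agent.Y456.LG.Mat ℚ, IsTower {0, 1} M ∧
      ∀ {C : Type u} [Category.{v} C] [Abelian C] [HasFiniteBiproducts C] [MonoidalCategory C]
        [MonoidalPreadditive C] [BraidedCategory C] {D : Graded ℚ C} {T : C}, Semisimple C →
        IsGraded D → IsTensor D T →
        (∀ N : C, ∃ i₀, ∀ i ≥ i₀, ∃ (n : ℕ)
          (s : Pool.Agent.Y691.TU.tw D.L n N ⟶ hSec D (M i).2.2)
          (r : hSec D (M i).2.2 ⟶ Pool.Agent.Y691.TU.tw D.L n N), s ≫ r = 𝟙 _) ∧
        ∀ P : C → Prop, (∃ N, P N) ↔
          ∃ i₀, ∀ i ≥ i₀, ∃ (N : C) (n : ℕ) (e : hSec D (M i).2.2 ⟶ hSec D (M i).2.2)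
            (s : Pool.Agent.Y691.TU.tw D.L n N ⟶ hSec D (M i).2.2)
            (r : hSec D (M i).2.2 ⟶ Pool.Agent.Y691.TU.tw D.L n N),
              P N ∧ e ≫ e = e ∧ r ≫ s = e ∧ s ≫ r = 𝟙 _ := by
  have hS : Enough ({0, 1} : Set ℚ) := enough_frac isFrac_rat
  obtain ⟨M, h1, h2⟩ := tower_all (Set.toFinite ({0, 1} : Set ℚ)).countable hS
  refine ⟨M, h1, ?_⟩
  intro C _ _ _ _ _ _ D T hC hD hT
  have key : ∀ N : C, ∃ i₀, ∀ i ≥ i₀, ∃ (n : ℕ)
      (s : Pool.Agent.Y691.TU.tw D.L n N ⟶ hSec D (M i).2.2)
      (r : hSec D (M i).2.2 ⟶ Pool.Agent.Y691.TU.tw D.L n N), s ≫ r = 𝟙 _ := h2 hC hD hT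
  refine ⟨key, fun P => ⟨?_, ?_⟩⟩
  · rintro ⟨N, hN⟩
    obtain ⟨i₀, h⟩ := key N
    refine ⟨i₀, fun i hi => ?_⟩
    obtain ⟨n, s, r, hs⟩ := h i hi
    refine ⟨N, n, r ≫ s, s, r, hN, ?_, rfl, hs⟩
    rw [Category.assoc, ← Category.assoc s r s, hs, Category.id_comp]
  · rintro ⟨i₀, h⟩
    obtain ⟨N, _, _, _, _, hN, _⟩ := h i₀ le_rfl
    exact ⟨N, hN⟩

end Pool.Agent.Results.MP_7742d9_nt.OneTower
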