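import Pool.Agent.Y719.TN.NF

/-!
# Satake parameters among the Frobenius eigenvalues of a motive

Let `Π` be an algebraic cuspidal automorphic representation over a number field `K`, for example over
`ℚ`, with the (normalised) Satake polynomials `P_v`, and let `M` be a motive over `K` with the Frobenius
polynomials `Q_v`, where `P_v` and `Q_v` have coefficients in a field `E`.  Suppose that at almost all
`v` every root of `P_v` is a root of `Q_v`.  We prove: for every prime number `p` and every embedding of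
`E` into `ℚ_p-bar`, an irreducible `p-adic` representation `ρ` attached to `Π` is a subquotient of
`W^{⊗a} ⊗ (W^∨)^{⊗b} ⊗ ℚ_p-bar[Gal(L/K)]` for some `a`, `b` and some finite Galois extension `L` of `K`,
where `W` is the `p`-adic realisation of `M`.  So the `p`-adic representations of `Π` lie in the tensor
category which is generated by the realisations of `M` and of Artin motives.
-/

set_option autoImplicit false

namespace Pool.Agent.Results.MP_7742d9_nt.SatakeAmongFrobenius

open NumberField IsDedekindDomain Filter Topology Polynomial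

/-- The absolute Galois group of `K`. -/
abbrev G (K : Type) [Field K] : Type := Gal(AlgebraicClosure K/K)

/-- `n`-dimensional representations of `G_K` over the algebraic closure of `ℚ_p`. -/
abbrev Rep (K : Type) [Field K] (p : ℕ) [Fact p.Prime] (n : ℕ) : Type :=
  G K →* GL (Fin n) (PadicAlgCl p)

section
variable {K : Type} [Field K] {p : ℕ} [Fact p.Prime] {n N : ℕ}

/-- `g` is a Frobenius element at `v`: for some maximal ideal `Q` above `v` of the ring of all
algebraic integers, `g x ≡ x ^ N(v)` modulo `Q` for all `x`. -/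
def Frobenius [NumberField K] (v : HeightOneSpectrum (𝓞 K)) (g : G K) : Prop :=
  ∃ Q : Ideal (𝓞 (AlgebraicClosure K)), Q.IsMaximal ∧
    Q.comap (algebraMap (𝓞 K) (𝓞 (AlgebraicClosure K))) = v.asIdeal ∧
    ∀ x : 𝓞 (AlgebraicClosure K), g • x - x ^ Ideal.absNorm v.asIdeal ∈ Q

/-- The matrix of `g`. -/
noncomputable def matrix (ρ : Rep K p n) (g : G K) : Matrix (Fin n) (Fin n) (PadicAlgCl p) :=
  (ρ g : GL (Fin n) (PadicAlgCl p))

/-- `V` is a stable subspace. -/
def Stable (ρ : Rep K p n) (V : Submodule (PadicAlgCl p) (Fin n → PadicAlgCl p)) : Prop :=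
  ∀ g, ∀ x ∈ V, (matrix ρ g).mulVec x ∈ V

/-- `ρ` is irreducible. -/
def Irreducible (ρ : Rep K p n) : Prop :=
  0 < n ∧ ∀ V, Stable ρ V → V = ⊥ ∨ V = ⊤

/-- `ρ` is (isomorphic to) a subquotient of the space `X` on which `g ∈ G_K` acts as `act g`: there are
a stable subspace `V` of `X` and a linear map which maps `V` onto `ρ` and is equivariant on `V`. -/
def SubquotientOf {X : Type} [AddCommGroup X] [Module (PadicAlgCl p) X] (act : G K → X → X)
    (ρ : Rep K p n) : Prop :=
  ∃ V : Submodule (PadicAlgCl p) X, (∀ g, ∀ x ∈ V, act g x ∈ V) ∧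
    ∃ f : X → Fin n → PadicAlgCl p, IsLinearMap (PadicAlgCl p) f ∧ (∀ y, ∃ x ∈ V, f x = y) ∧
      ∀ g, ∀ x ∈ V, f (act g x) = (matrix ρ g).mulVec (f x)

/-- The space of `W^{⊗a} ⊗ (W^∨)^{⊗b} ⊗ ℚ_p-bar[G_K/U]`, where `W` has the dimension `N`: functions on
the standard basis. -/
def TensorSpace (K : Type) [Field K] (p : ℕ) [Fact p.Prime] (N a b : ℕ)
    (U : Subgroup (G K)) : Type :=
  (Fin a → Fin N) → (Fin b → Fin N) → G K ⧸ U → PadicAlgCl p

noncomputable instance (N a b : ℕ) (U : Subgroup (G K)) : AddCommGroup (TensorSpace K p N a b U) :=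
  Pi.addCommGroup

noncomputable instance (N a b : ℕ) (U : Subgroup (G K)) :
    Module (PadicAlgCl p) (TensorSpace K p N a b U) :=
  Pi.module _ _ _

/-- The matrix coefficient `∏_s W(g)_{i_s, i'_s} · ∏_t W(g⁻¹)_{j'_t, j_t}` of
`W^{⊗a} ⊗ (W^∨)^{⊗b}`. -/
noncomputable def coefficient {a b : ℕ} (W : Rep K p N) (g : G K) (i i' : Fin a → Fin N)
    (j j' : Fin b → Fin N) : PadicAlgCl p :=
  (∏ s, matrix W g (i s) (i' s)) * ∏ t, matrix W g⁻¹ (j' t) (j t)

/-- The action of `g` on `W^{⊗a} ⊗ (W^∨)^{⊗b} ⊗ ℚ_p-bar[G_K/U]`: the value of `g F` at `(i, j, c)` is the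
sum over `(i', j')` of `∏_s W(g)_{i_s, i'_s} · ∏_t W(g⁻¹)_{j'_t, j_t} · F(i', j', g⁻¹ c)`. -/
noncomputable def tensorAction (a b : ℕ) (U : Subgroup (G K)) (W : Rep K p N) (g : G K)
    (F : TensorSpace K p N a b U) : TensorSpace K p N a b U := fun i j c =>
  ∑ i', ∑ j', coefficient W g i i' j j' * F i' j' (g⁻¹ • c)

/-- `ρ` is a subquotient of `W^{⊗a} ⊗ (W^∨)^{⊗b} ⊗ ℚ_p-bar[G_K/U]` for some `a`, `b` and some open
normal subgroup `U`. -/
def Tensorial (W : Rep K p N) (ρ : Rep K p n) : Prop :=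
  ∃ U : Subgroup (G K), U.Normal ∧ IsOpen (U : Set (G K)) ∧
    ∃ a b : ℕ, SubquotientOf (tensorAction a b U W) ρ

/-- For all but finitely many `v` the characteristic polynomial of `ρ(g)`, for every Frobenius element
`g` at `v`, is the image of `P_v` under `ι`. -/
def HasCharpoly [NumberField K] {E : Type} [Field E] (ι : E →+* PadicAlgCl p) (ρ : Rep K p n)
    (P : HeightOneSpectrum (𝓞 K) → E[X]) : Prop :=
  ∀ᶠ v in cofinite, ∀ g, Frobenius v g → (matrix ρ g).charpoly = (P v).map ι

end

/-- **Satake parameters among Frobenius eigenvalues.**  Let `K` be a number field, `E` a field and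
`P_v`, `Q_v` polynomials over `E` for the finite places `v` of `K`, such that for all but finitely many
`v` every root of `P_v` is a root of `Q_v` (`P_v` divides a power of `Q_v`).  Let `p` be any prime number,
`ι` any embedding of `E` into `ℚ_p-bar`, `ρ` a continuous irreducible representation of `G_K` of
dimension `n` with the Frobenius polynomials `P_v` and `W` a continuous representation of `G_K` of
dimension `N` with the Frobenius polynomials `Q_v`, at all but finitely many `v`.  Then `ρ` is a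
subquotient of `W^{⊗a} ⊗ (W^∨)^{⊗b} ⊗ ℚ_p-bar[G_K/U]` for some `a`, `b` and some open normal subgroup
`U`. -/
theorem result (K : Type) [Field K] [NumberField K] (n N : ℕ) (E : Type) [Field E]
    (P Q : HeightOneSpectrum (𝓞 K) → E[X]) (h : ∀ᶠ v in cofinite, ∃ m : ℕ, P v ∣ Q v ^ m)
    (p : ℕ) [Fact p.Prime] (ι : E →+* PadicAlgCl p) (ρ : Rep K p n) (W : Rep K p N)
    (hρ : Continuous ρ) (hW : Continuous W) (hirr : Irreducible ρ) (h₁ : HasCharpoly ι ρ P)
    (h₂ : HasCharpoly ι W Q) : Tensorial W ρ := by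
  have key : (∃ U : Subgroup (G K), U.Normal ∧ IsOpen (U : Set (G K)) ∧
      ∃ a b : ℕ, Pool.Agent.Y719.TN.SQF a b U W ρ) → Tensorial W ρ := by
    rintro ⟨U, hn, ho, a, b, h⟩
    obtain ⟨V, hV, f, hf, hfe⟩ := h.subC
    exact ⟨U, hn, ho, a, b, V, hV, f, f.isLinear, hf, hfe⟩
  refine key (Pool.Agent.Y719.TN.criterionR ρ W hρ hW hirr
    ({v | ¬ ∃ m : ℕ, P v ∣ Q v ^ m} ∪
      ({v | ¬ ∀ g, Frobenius v g → (matrix ρ g).charpoly = (P v).map ι} ∪
      {v | ¬ ∀ g, Frobenius v g → (matrix W g).charpoly = (Q v).map ι}))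
    (Set.Finite.union h (Set.Finite.union h₁ h₂)) (fun v hv g hg z hz => ?_))
  simp only [Set.mem_union, not_or] at hv
  obtain ⟨m, hm⟩ := not_not.1 hv.1
  have e1 : (matrix ρ g).charpoly = (P v).map ι := (not_not.1 hv.2.1) g hg
  have e2 : (matrix W g).charpoly = (Q v).map ι := (not_not.1 hv.2.2) g hg
  have hz' : ((P v).map ι).IsRoot z := by
    rw [← e1]
    exact hz
  have h3 : (P v).map ι ∣ ((Q v).map ι) ^ m := by
    rw [← Polynomial.map_pow]
    exact Polynomial.map_dvd ι hm
  have h4 : (((Q v).map ι) ^ m).IsRoot z := hz'.dvd h3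
  have h5 : ((Q v).map ι).IsRoot z := by
    rw [IsRoot.def, eval_pow] at h4
    exact eq_zero_of_pow_eq_zero h4
  change (matrix W g).charpoly.IsRoot z
  rw [e2]
  exact h5

end Pool.Agent.Results.MP_7742d9_nt.SatakeAmongFrobenius
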